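import Pool.Agent.H108R3.Had.Defs

set_option autoImplicit false
set_option linter.unusedSectionVars false

/-!
# Flat orthogonal matrices from a Hadamard matrix of a slightly larger order

Let `H = (A B; C D)` be a Hadamard matrix of order `m = n + d` with blocks of sizes `n` and `d`,
`d < √m`. Then `M = A + B (√m - D)⁻¹ C` satisfies `M Mᵀ = m`, and its entries differ from those of
`A` by `d / (√m - d)` at most.
-/

namespace Run7.h733.NI

open Matrix Finset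

section

variable {k : ℕ}

/-- Euclidean norm -/
noncomputable def nr (v : Fin k → ℝ) : ℝ := Real.sqrt (∑ i, v i ^ 2)

theorem nr_eq (v : Fin k → ℝ) : nr v = ‖(WithLp.toLp 2 v : EuclideanSpace ℝ (Fin k))‖ := by
  rw [EuclideanSpace.norm_eq]
  unfold nr
  congr 1
  refine Finset.sum_congr rfl fun i _ => ?_
  simp

theorem nr_nonneg (v : Fin k → ℝ) : 0 ≤ nr v := Real.sqrt_nonneg _

theorem nr_sq (v : Fin k → ℝ) : nr v ^ 2 = ∑ i, v i ^ 2 :=
  Real.sq_sqrt (Finset.sum_nonneg fun _ _ => sq_nonneg _)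

theorem nr_add (u v : Fin k → ℝ) : nr (u + v) ≤ nr u + nr v := by
  rw [nr_eq, nr_eq, nr_eq, WithLp.toLp_add]
  exact norm_add_le _ _

theorem nr_smul (c : ℝ) (v : Fin k → ℝ) : nr (c • v) = |c| * nr v := by
  rw [nr_eq, nr_eq, WithLp.toLp_smul, norm_smul, Real.norm_eq_abs]

theorem nr_zero {v : Fin k → ℝ} (h : nr v = 0) : v = 0 := by
  rw [nr_eq, norm_eq_zero] at h
  simpa using h

/-- Cauchy-Schwarz -/
theorem dot_le (u v : Fin k → ℝ) : |∑ i, u i * v i| ≤ nr u * nr v := by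
  apply abs_le_of_sq_le_sq _ (mul_nonneg (nr_nonneg _) (nr_nonneg _))
  rw [mul_pow, nr_sq, nr_sq]
  exact Finset.sum_mul_sq_le_sq_mul_sq _ _ _

end

/-- a sign vector has norm `√d` -/
theorem nr_sign {d : ℕ} {v : Fin d → ℝ} (h : ∀ i, v i = 1 ∨ v i = -1) : nr v = Real.sqrt d := by
  unfold nr
  congr 1
  have : ∀ i ∈ (Finset.univ : Finset (Fin d)), v i ^ 2 = 1 := by
    intro i _
    rcases h i with h | h <;> rw [h] <;> norm_num
  rw [Finset.sum_congr rfl this]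
  simp

/-- a sign matrix of order `d` has norm at most `d` -/
theorem nr_mulVec {d : ℕ} {D : Matrix (Fin d) (Fin d) ℝ} (h : ∀ i j, D i j = 1 ∨ D i j = -1)
    (v : Fin d → ℝ) : nr (D *ᵥ v) ≤ d * nr v := by
  have h1 : ∀ i, (D *ᵥ v) i ^ 2 ≤ d * nr v ^ 2 := by
    intro i
    have h2 := dot_le (D i) v
    rw [nr_sign (h i)] at h2
    have h3 : (D *ᵥ v) i = ∑ j, D i j * v j := rfl
    rw [h3, ← sq_abs]
    calc |∑ j, D i j * v j| ^ 2 ≤ (Real.sqrt d * nr v) ^ 2 :=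
          pow_le_pow_left₀ (abs_nonneg _) h2 2
      _ = d * nr v ^ 2 := by rw [mul_pow, Real.sq_sqrt (Nat.cast_nonneg d)]
  apply Real.sqrt_le_iff.2
  refine ⟨mul_nonneg (Nat.cast_nonneg d) (nr_nonneg _), ?_⟩
  calc ∑ i, (D *ᵥ v) i ^ 2 ≤ ∑ _i : Fin d, (d * nr v ^ 2) := Finset.sum_le_sum fun i _ => h1 i
    _ = (d * nr v) ^ 2 := by
      rw [Finset.sum_const, Finset.card_univ, Fintype.card_fin, nsmul_eq_mul]; ring

section

variable {n d : ℕ} {m s : ℝ} {A : Matrix (Fin n) (Fin n) ℝ} {B : Matrix (Fin n) (Fin d) ℝ}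
  {C : Matrix (Fin d) (Fin n) ℝ} {D X : Matrix (Fin d) (Fin d) ℝ}

/-- The algebra. -/
theorem schur (hs : s * s = m) (h11 : A * Aᵀ + B * Bᵀ = m • 1) (h12 : A * Cᵀ + B * Dᵀ = 0)
    (h22 : C * Cᵀ + D * Dᵀ = m • 1) (hX : X * (s • 1 - D) = 1) :
    (A + B * X * C) * (A + B * X * C)ᵀ = m • 1 := by
  have e1 : A * Aᵀ = m • 1 - B * Bᵀ := by rw [← h11]; abel
  have e2 : A * Cᵀ = -(B * Dᵀ) := by rw [eq_neg_iff_add_eq_zero]; exact h12
  have e2' : C * Aᵀ = -(D * Bᵀ) := by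
    have := congrArg Matrix.transpose e2
    rw [Matrix.transpose_mul, Matrix.transpose_neg, Matrix.transpose_mul,
      Matrix.transpose_transpose, Matrix.transpose_transpose] at this
    exact this
  have e3 : C * Cᵀ = m • 1 - D * Dᵀ := by rw [← h22]; abel
  have e4 : X * D = s • X - 1 := by
    rw [Matrix.mul_sub, Matrix.mul_smul, Matrix.mul_one] at hX
    rw [← hX]; abel
  have e4' : Dᵀ * Xᵀ = s • Xᵀ - 1 := by
    have := congrArg Matrix.transpose e4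
    rw [Matrix.transpose_mul, Matrix.transpose_sub, Matrix.transpose_smul,
      Matrix.transpose_one] at this
    exact this
  have e5 : (A + B * X * C) * (A + B * X * C)ᵀ = A * Aᵀ + (A * Cᵀ) * (Xᵀ * Bᵀ) +
      B * X * (C * Aᵀ) + B * X * (C * Cᵀ) * (Xᵀ * Bᵀ) := by
    rw [Matrix.transpose_add, Matrix.transpose_mul, Matrix.transpose_mul]
    simp only [Matrix.mul_add, Matrix.add_mul, Matrix.mul_assoc]
    abel
  have e6 : (A * Cᵀ) * (Xᵀ * Bᵀ) = -(B * (Dᵀ * Xᵀ) * Bᵀ) := by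
    rw [e2, Matrix.neg_mul]
    simp only [Matrix.mul_assoc]
  have e7 : B * X * (C * Aᵀ) = -(B * (X * D) * Bᵀ) := by
    rw [e2', Matrix.mul_neg]
    simp only [Matrix.mul_assoc]
  have e8 : B * X * (C * Cᵀ) * (Xᵀ * Bᵀ) =
      m • (B * (X * Xᵀ) * Bᵀ) - B * ((X * D) * (Dᵀ * Xᵀ)) * Bᵀ := by
    rw [e3, Matrix.mul_sub, Matrix.sub_mul, Matrix.mul_smul, Matrix.mul_one, Matrix.smul_mul]
    simp only [Matrix.mul_assoc]
  have e9 : (X * D) * (Dᵀ * Xᵀ) = m • (X * Xᵀ) - s • X - s • Xᵀ + 1 := by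
    rw [e4, e4', Matrix.sub_mul, Matrix.mul_sub, Matrix.mul_sub, Matrix.smul_mul, Matrix.mul_smul,
      smul_smul, hs, Matrix.mul_one, Matrix.one_mul, Matrix.one_mul]
    abel
  rw [e5, e6, e7, e8, e9, e4, e4', e1]
  simp only [Matrix.mul_add, Matrix.add_mul, Matrix.mul_sub, Matrix.sub_mul, Matrix.mul_smul,
    Matrix.smul_mul, Matrix.mul_one]
  abel

end

/-- The flat orthogonal matrix. -/
theorem flat {n d : ℕ} (hd : (d : ℝ) < Real.sqrt (n + d))
    (h : Pool.Agent.H108R3.Had.HasHad (n + d)) :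
    ∃ A M : Matrix (Fin n) (Fin n) ℝ, (∀ i j, A i j = 1 ∨ A i j = -1) ∧
      M * Mᵀ = ((n : ℝ) + d) • (1 : Matrix (Fin n) (Fin n) ℝ) ∧
      ∀ i j, |M i j - A i j| ≤ d / (Real.sqrt (n + d) - d) := by
  obtain ⟨H, hH, hHH⟩ := h
  obtain ⟨G, hG⟩ : ∃ G : Matrix (Fin n ⊕ Fin d) (Fin n ⊕ Fin d) ℝ,
    G = (H.map (Int.cast : ℤ → ℝ)).submatrix finSumFinEquiv finSumFinEquiv := ⟨_, rfl⟩
  have hGs : ∀ i j, G i j = 1 ∨ G i j = -1 := by
    intro i j
    rw [hG, Matrix.submatrix_apply, Matrix.map_apply]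
    rcases hH (finSumFinEquiv i) (finSumFinEquiv j) with h | h <;> rw [h] <;> simp
  have hGG : G * Gᵀ = ((n : ℝ) + d) • 1 := by
    rw [hG, Matrix.transpose_submatrix, Matrix.submatrix_mul_equiv, ← Matrix.transpose_map,
      ← Matrix.map_mul_intCast, hHH]
    ext i j
    rw [Matrix.submatrix_apply, Matrix.map_apply, Matrix.smul_apply, Matrix.one_apply,
      Matrix.smul_apply, Matrix.one_apply]
    by_cases hij : i = j
    · rw [if_pos hij, if_pos (by rw [hij]), smul_eq_mul, smul_eq_mul, mul_one, mul_one]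
      push_cast
      ring
    · rw [if_neg hij, if_neg (fun h => hij (finSumFinEquiv.injective h)), smul_zero, smul_zero,
        Int.cast_zero]
  obtain ⟨A, hA⟩ : ∃ A, A = G.toBlocks₁₁ := ⟨_, rfl⟩
  obtain ⟨B, hB⟩ : ∃ B, B = G.toBlocks₁₂ := ⟨_, rfl⟩
  obtain ⟨C, hC⟩ : ∃ C, C = G.toBlocks₂₁ := ⟨_, rfl⟩
  obtain ⟨D, hD⟩ : ∃ D, D = G.toBlocks₂₂ := ⟨_, rfl⟩
  have hbl : G = Matrix.fromBlocks A B C D := by
    rw [hA, hB, hC, hD, Matrix.fromBlocks_toBlocks]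
  have hone : (((n : ℝ) + d) • 1 : Matrix (Fin n ⊕ Fin d) (Fin n ⊕ Fin d) ℝ) =
      Matrix.fromBlocks (((n : ℝ) + d) • 1) 0 0 (((n : ℝ) + d) • 1) := by
    rw [← Matrix.fromBlocks_one, Matrix.fromBlocks_smul, smul_zero, smul_zero]
  rw [hbl, Matrix.fromBlocks_transpose, Matrix.fromBlocks_multiply, hone,
    Matrix.fromBlocks_inj] at hGG
  obtain ⟨h11, h12, -, h22⟩ := hGG
  have hAs : ∀ i j, A i j = 1 ∨ A i j = -1 := fun i j => by rw [hA]; exact hGs _ _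
  have hBs : ∀ i j, B i j = 1 ∨ B i j = -1 := fun i j => by rw [hB]; exact hGs _ _
  have hCs : ∀ i j, C i j = 1 ∨ C i j = -1 := fun i j => by rw [hC]; exact hGs _ _
  have hDs : ∀ i j, D i j = 1 ∨ D i j = -1 := fun i j => by rw [hD]; exact hGs _ _
  obtain ⟨s, hs⟩ : ∃ s, s = Real.sqrt (n + d) := ⟨_, rfl⟩
  rw [← hs] at hd ⊢
  have hs0 : 0 ≤ s := by rw [hs]; exact Real.sqrt_nonneg _
  have hss : s * s = (n : ℝ) + d := by rw [hs]; exact Real.mul_self_sqrt (by positivity)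
  have hd0 : 0 < s - d := by linarith
  -- the key inequality
  have hkey : ∀ z c : Fin d → ℝ, (s • (1 : Matrix (Fin d) (Fin d) ℝ) - D) *ᵥ z = c →
      nr z ≤ nr c / (s - d) := by
    intro z c hz
    rw [Matrix.sub_mulVec, Matrix.smul_mulVec, Matrix.one_mulVec] at hz
    have h1 : s • z = c + D *ᵥ z := by rw [← hz]; abel
    have h2 : nr (s • z) ≤ nr c + nr (D *ᵥ z) := by rw [h1]; exact nr_add _ _
    rw [nr_smul, abs_of_nonneg hs0] at h2
    have h3 := nr_mulVec hDs z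
    rw [le_div_iff₀ hd0]
    nlinarith
  have hunit : IsUnit (s • (1 : Matrix (Fin d) (Fin d) ℝ) - D).det := by
    rw [isUnit_iff_ne_zero]
    intro hdet
    obtain ⟨v, hv, hv2⟩ := Matrix.exists_mulVec_eq_zero_iff.2 hdet
    have h1 := hkey v 0 hv2
    have h2 : nr (0 : Fin d → ℝ) = 0 := by
      unfold nr
      simp
    rw [h2, zero_div] at h1
    exact hv (nr_zero (le_antisymm h1 (nr_nonneg _)))
  obtain ⟨X, hX⟩ : ∃ X, X = (s • (1 : Matrix (Fin d) (Fin d) ℝ) - D)⁻¹ := ⟨_, rfl⟩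
  have hX1 : X * (s • 1 - D) = 1 := by rw [hX]; exact Matrix.nonsing_inv_mul _ hunit
  have hX2 : (s • 1 - D) * X = 1 := by rw [hX]; exact Matrix.mul_nonsing_inv _ hunit
  refine ⟨A, A + B * X * C, hAs, schur hss h11 h12 h22 hX1, ?_⟩
  intro i j
  have e1 : (A + B * X * C) i j - A i j = ∑ k, B i k * (X *ᵥ (fun l => C l j)) k := by
    rw [Matrix.add_apply, add_sub_cancel_left, Matrix.mul_assoc, Matrix.mul_apply]
    rfl
  rw [e1]
  refine (dot_le (B i) _).trans ?_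
  rw [nr_sign (hBs i)]
  have h1 := hkey (X *ᵥ (fun l => C l j)) (fun l => C l j) (by
    rw [Matrix.mulVec_mulVec, hX2, Matrix.one_mulVec])
  rw [nr_sign (fun l => hCs l j)] at h1
  calc Real.sqrt d * nr (X *ᵥ (fun l => C l j)) ≤ Real.sqrt d * (Real.sqrt d / (s - d)) :=
        mul_le_mul_of_nonneg_left h1 (Real.sqrt_nonneg _)
    _ = d / (s - d) := by rw [← mul_div_assoc, Real.mul_self_sqrt (Nat.cast_nonneg d)]

end Run7.h733.NI
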