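import Pool.Agent.Run7.h733.NI.Main

set_option autoImplicit false
set_option linter.unusedSectionVars false

/-!
# Flat orthogonal matrices: both bounds
-/

namespace Run7.h733.NI

open Matrix Finset Pool.Agent.H108R3.Had

/-- The upper bound: flat orthogonal matrices. -/
theorem flat_up (j : ℕ) : ∃ N : ℕ, ∀ n : ℕ, N ≤ n → 1 ≤ Real.log^[j] (n : ℝ) ∧
    ∃ U : Matrix (Fin n) (Fin n) ℝ, U * Uᵀ = 1 ∧ ∀ i k,
      |Real.sqrt n * |U i k| - 1| ≤ Real.log^[j] (n : ℝ) / Real.sqrt n := by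
  obtain ⟨N, hN, hgrow⟩ := grow j
  refine ⟨N, fun n hn => ?_⟩
  obtain ⟨hL, d, hd1, hhad, hdn, hdL⟩ := hgrow n hn
  refine ⟨by linarith, ?_⟩
  obtain ⟨p1, p2, p3, p4, p5, p6⟩ := params (by omega : 10000 ≤ n) hd1 hdn
  obtain ⟨x, hx⟩ : ∃ x, x = (n : ℝ) ^ (1 / 4 : ℝ) := ⟨_, rfl⟩
  obtain ⟨s, hs⟩ : ∃ s, s = Real.sqrt (n + d) := ⟨_, rfl⟩
  obtain ⟨r, hr⟩ : ∃ r, r = Real.sqrt n := ⟨_, rfl⟩
  obtain ⟨L, hLd⟩ : ∃ L, L = Real.log^[j] (n : ℝ) := ⟨_, rfl⟩
  rw [← hx] at p2 p3 p4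
  rw [← hs] at p5 p6
  rw [← hr] at p4 p5 p6 ⊢
  rw [← hLd] at hL hdL ⊢
  have hd0 : (1 : ℝ) ≤ d := by exact_mod_cast hd1
  have hr100 : 100 ≤ r := by rw [← p4]; nlinarith
  have hxr : 10 * x ≤ r := by rw [← p4]; nlinarith
  have hdr : 5 * (d : ℝ) ≤ r := by linarith
  have hsd : 0 < s - d := by linarith
  have hm : (0 : ℝ) < n + d := by positivity
  have hs0 : 0 < s := by linarith
  have hss : s * s = n + d := by rw [hs]; exact Real.mul_self_sqrt hm.le
  have hrr : r * r = n := by rw [hr]; exact Real.mul_self_sqrt (Nat.cast_nonneg n)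
  obtain ⟨A, M, hA, hM, hMA⟩ := flat (n := n) (d := d) (by rw [← hs]; linarith) hhad
  rw [← hs] at hMA
  refine ⟨s⁻¹ • M, ?_, ?_⟩
  · rw [Matrix.transpose_smul, Matrix.smul_mul, Matrix.mul_smul, hM, smul_smul, smul_smul, ← hss]
    have : s⁻¹ * (s⁻¹ * (s * s)) = 1 := by field_simp
    rw [mul_assoc, this, one_smul]
  · intro i k
    have h1 : |A i k| = 1 := by
      rcases hA i k with h | h <;> rw [h] <;> simp
    have h2 := abs_sub_abs_le_abs_sub (M i k) (A i k)
    have h3 := abs_sub_abs_le_abs_sub (A i k) (M i k)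
    rw [abs_sub_comm] at h3
    have h4 := hMA i k
    have h5 : (d : ℝ) / (s - d) ≤ 2 * d / r := by
      rw [div_le_div_iff₀ hsd (by linarith)]
      nlinarith
    rw [h1] at h2 h3
    obtain ⟨u, hu⟩ : ∃ u, u = |M i k| := ⟨_, rfl⟩
    rw [← hu] at h2 h3
    have h6 : |(s⁻¹ • M) i k| = u / s := by
      rw [Matrix.smul_apply, smul_eq_mul, abs_mul, abs_inv, abs_of_pos hs0, hu, div_eq_inv_mul]
    rw [h6]
    have hr0 : 0 < r := by linarith
    have h7 : |u - 1| ≤ 2 * d / r := by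
      rw [abs_le]
      constructor <;> linarith
    -- `|r u / s - 1| ≤ |u - 1| + (s - r) / s`
    have e1 : r * (u / s) - 1 = r / s * (u - 1) - (s - r) / s := by
      field_simp
      ring
    have h8 : r / s ≤ 1 := by rw [div_le_one hs0]; exact p5
    have h9 : (s - r) / s ≤ d / r := by
      rw [div_le_div_iff₀ hs0 hr0]
      nlinarith
    have h10 : 0 ≤ (s - r) / s := div_nonneg (by linarith) hs0.le
    rw [e1]
    have h11 : |r / s * (u - 1) - (s - r) / s| ≤ |r / s * (u - 1)| + |(s - r) / s| := abs_sub _ _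
    rw [abs_mul, abs_of_nonneg (show 0 ≤ r / s by positivity), abs_of_nonneg h10] at h11
    have h12 : r / s * |u - 1| ≤ |u - 1| := mul_le_of_le_one_left (abs_nonneg _) h8
    have h13 : 2 * (d : ℝ) / r + d / r ≤ L / r := by
      rw [← add_div]
      refine div_le_div_of_nonneg_right ?_ hr0.le
      have := Real.quadratic_le_exp_of_nonneg (show (0:ℝ) ≤ 2 * d by positivity)
      nlinarith
    linarith

/-- three sign vectors -/
theorem triple {n : ℕ} (a b c : Fin n → ℤ) (ha : ∀ l, a l = 1 ∨ a l = -1)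
    (hb : ∀ l, b l = 1 ∨ b l = -1) (hc : ∀ l, c l = 1 ∨ c l = -1) :
    (4 : ℤ) ∣ (∑ l, a l * b l) + (∑ l, b l * c l) + (∑ l, a l * c l) + n := by
  have e : (∑ l, a l * b l) + (∑ l, b l * c l) + (∑ l, a l * c l) + (n : ℤ) =
      ∑ l : Fin n, (a l * b l + b l * c l + a l * c l + 1) := by
    rw [Finset.sum_add_distrib, Finset.sum_add_distrib, Finset.sum_add_distrib]
    simp
  rw [e]
  refine Finset.dvd_sum fun l _ => ?_
  rcases ha l with h1 | h1 <;> rcases hb l with h2 | h2 <;> rcases hc l with h3 | h3 <;>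
    rw [h1, h2, h3] <;> norm_num

/-- Sign matrices of an order which is not divisible by four are not nearly Hadamard. -/
theorem frob_low {n : ℕ} (hn : ¬ 4 ∣ n) (S : Matrix (Fin n) (Fin n) ℤ)
    (hS : ∀ i k, S i k = 1 ∨ S i k = -1) :
    (n : ℤ) * ((n - 1) * (n - 2)) ≤
      3 * (n * ∑ i, ∑ k, (if i = k then 0 else (∑ l, S i l * S k l) ^ 2)) := by
  classical
  obtain ⟨G, hG⟩ : ∃ G : Fin n → Fin n → ℤ, G = fun i k => if i = k then 0 else
    (∑ l, S i l * S k l) ^ 2 := ⟨_, rfl⟩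
  have hG0 : ∀ i k, 0 ≤ G i k := by
    intro i k
    rw [hG]
    simp only
    split_ifs
    · exact le_rfl
    · positivity
  have hGe : ∀ i k, (if i = k then 0 else (∑ l, S i l * S k l) ^ 2) = G i k := by
    intro i k; rw [hG]
  simp only [hGe]
  -- lower bound for every triple
  have hT : ∀ i j k : Fin n, (if i ≠ j ∧ j ≠ k ∧ i ≠ k then (1 : ℤ) else 0) ≤
      G i j + G j k + G i k := by
    intro i j k
    split_ifs with h
    · obtain ⟨h1, h2, h3⟩ := h
      have h4 := triple (S i) (S j) (S k) (hS i) (hS j) (hS k)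
      rw [hG]
      simp only
      rw [if_neg h1, if_neg h2, if_neg h3]
      by_contra hcon
      push Not at hcon
      obtain ⟨u, hu⟩ : ∃ u, u = ∑ l, S i l * S j l := ⟨_, rfl⟩
      obtain ⟨v, hv⟩ : ∃ v, v = ∑ l, S j l * S k l := ⟨_, rfl⟩
      obtain ⟨w, hw⟩ : ∃ w, w = ∑ l, S i l * S k l := ⟨_, rfl⟩
      rw [← hu, ← hv, ← hw] at h4 hcon
      have g1 : u = 0 := by nlinarith [sq_nonneg u, sq_nonneg v, sq_nonneg w]
      have g2 : v = 0 := by nlinarith [sq_nonneg u, sq_nonneg v, sq_nonneg w]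
      have g3 : w = 0 := by nlinarith [sq_nonneg u, sq_nonneg v, sq_nonneg w]
      rw [g1, g2, g3] at h4
      apply hn
      have : (4 : ℤ) ∣ (n : ℤ) := by simpa using h4
      exact_mod_cast this
    · have := hG0 i j
      have := hG0 j k
      have := hG0 i k
      linarith
  -- the number of the triples
  have hcount : (n : ℤ) * ((n - 1) * (n - 2)) =
      ∑ i : Fin n, ∑ j : Fin n, ∑ k : Fin n, (if i ≠ j ∧ j ≠ k ∧ i ≠ k then (1 : ℤ) else 0) := by
    have e1 : ∀ i j : Fin n, ∑ k : Fin n, (if i ≠ j ∧ j ≠ k ∧ i ≠ k then (1 : ℤ) else 0) =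
        if i ≠ j then (n : ℤ) - 2 else 0 := by
      intro i j
      by_cases hij : i = j
      · rw [if_neg (by simpa using hij)]
        refine Finset.sum_eq_zero fun k _ => ?_
        rw [if_neg]
        exact fun h => h.1 hij
      · rw [if_pos hij]
        have e2 : ∀ k : Fin n, (if i ≠ j ∧ j ≠ k ∧ i ≠ k then (1 : ℤ) else 0) =
            1 - (if k = i then 1 else 0) - (if k = j then 1 else 0) := by
          intro k
          by_cases h1 : k = i
          · have h2 : ¬ k = j := fun h => hij (h1.symm.trans h)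
            rw [if_neg (fun h => h.2.2 h1.symm), if_pos h1, if_neg h2]
            norm_num
          · by_cases h2 : k = j
            · rw [if_neg (fun h => h.2.1 h2.symm), if_neg h1, if_pos h2]
              norm_num
            · rw [if_pos ⟨hij, fun h => h2 h.symm, fun h => h1 h.symm⟩, if_neg h1, if_neg h2]
              norm_num
        rw [Finset.sum_congr rfl fun k _ => e2 k, Finset.sum_sub_distrib, Finset.sum_sub_distrib]
        simp
        ring
    have e3 : ∀ i : Fin n, ∑ j : Fin n, (if i ≠ j then (n : ℤ) - 2 else 0) =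
        ((n : ℤ) - 1) * (n - 2) := by
      intro i
      have e4 : ∀ j : Fin n, (if i ≠ j then (n : ℤ) - 2 else 0) =
          (n - 2) - (if j = i then (n : ℤ) - 2 else 0) := by
        intro j
        by_cases h : j = i
        · rw [if_neg (fun hh => hh h.symm), if_pos h, sub_self]
        · rw [if_pos (fun hh => h hh.symm), if_neg h, sub_zero]
      rw [Finset.sum_congr rfl fun j _ => e4 j, Finset.sum_sub_distrib]
      simp
      ring
    rw [Finset.sum_congr rfl fun i _ => (Finset.sum_congr rfl fun j _ => e1 i j).trans (e3 i)]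
    simp
  rw [hcount]
  refine (Finset.sum_le_sum fun i _ => Finset.sum_le_sum fun j _ => Finset.sum_le_sum fun k _ =>
    hT i j k).trans ?_
  have f1 : ∑ i : Fin n, ∑ j : Fin n, ∑ k : Fin n, (G i j + G j k + G i k) =
      3 * (n * ∑ i, ∑ k, G i k) := by
    simp only [Finset.sum_add_distrib]
    have a1 : ∑ i : Fin n, ∑ j : Fin n, ∑ _k : Fin n, G i j = n * ∑ i, ∑ k, G i k := by
      simp [Finset.mul_sum]
    have a2 : ∑ _i : Fin n, ∑ j : Fin n, ∑ k : Fin n, G j k = n * ∑ i, ∑ k, G i k := by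
      simp
    have a3 : ∑ i : Fin n, ∑ _j : Fin n, ∑ k : Fin n, G i k = n * ∑ i, ∑ k, G i k := by
      simp [Finset.mul_sum]
    rw [a1, a2, a3]
    ring
  rw [f1]

/-- The lower bound: orthogonal matrices of an order which is not divisible by four are not too
flat. -/
theorem flat_low {n : ℕ} (h3 : 3 ≤ n) (hn : ¬ 4 ∣ n) (U : Matrix (Fin n) (Fin n) ℝ)
    (hU : U * Uᵀ = 1) : ∃ i k, 1 / (10 * Real.sqrt n) ≤ |Real.sqrt n * |U i k| - 1| := by
  classical
  by_contra hcon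
  push Not at hcon
  have hn3 : (3 : ℝ) ≤ n := by exact_mod_cast h3
  have hn0 : (0 : ℝ) < n := by linarith
  obtain ⟨r, hr⟩ : ∃ r, r = Real.sqrt n := ⟨_, rfl⟩
  have hr0 : 0 < r := by rw [hr]; exact Real.sqrt_pos.2 hn0
  have hrr : r * r = n := by rw [hr]; exact Real.mul_self_sqrt hn0.le
  rw [← hr] at hcon
  obtain ⟨S, hS⟩ : ∃ S : Matrix (Fin n) (Fin n) ℤ, S = Matrix.of fun i k =>
    if 0 ≤ U i k then 1 else -1 := ⟨_, rfl⟩
  have hSs : ∀ i k, S i k = 1 ∨ S i k = -1 := by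
    intro i k
    rw [hS, Matrix.of_apply]
    split_ifs
    · exact Or.inl rfl
    · exact Or.inr rfl
  obtain ⟨W, hW⟩ : ∃ W : Matrix (Fin n) (Fin n) ℝ, W = r • U := ⟨_, rfl⟩
  have hWW : W * Wᵀ = (n : ℝ) • 1 := by
    rw [hW, Matrix.transpose_smul, Matrix.smul_mul, Matrix.mul_smul, hU, smul_smul, hrr]
  obtain ⟨Δ, hΔ⟩ : ∃ Δ : Fin n → Fin n → ℝ, Δ = fun i k => W i k - S i k := ⟨_, rfl⟩
  have hΔb : ∀ i k, |Δ i k| ≤ 1 / (10 * r) := by
    intro i k
    refine le_trans (le_of_eq ?_) (hcon i k).le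
    rw [hΔ, hW, hS]
    simp only [Matrix.smul_apply, smul_eq_mul, Matrix.of_apply]
    by_cases h0 : 0 ≤ U i k
    · rw [if_pos h0, abs_of_nonneg h0]
      norm_num
    · rw [if_neg h0, abs_of_neg (not_le.1 h0)]
      push_cast
      rw [← abs_neg]
      congr 1
      ring
  have hΔ2 : ∀ i k, Δ i k ^ 2 ≤ 1 / (100 * n) := by
    intro i k
    have h1 := pow_le_pow_left₀ (abs_nonneg _) (hΔb i k) 2
    rw [sq_abs] at h1
    refine h1.trans (le_of_eq ?_)
    rw [← hrr]
    field_simp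
    norm_num
  have hΔn : ∀ i, nr (Δ i) ^ 2 ≤ 1 / 100 := by
    intro i
    rw [nr_sq]
    refine (Finset.sum_le_sum fun k _ => hΔ2 i k).trans (le_of_eq ?_)
    rw [Finset.sum_const, Finset.card_univ, Fintype.card_fin, nsmul_eq_mul]
    field_simp
  -- off-diagonal inner products
  obtain ⟨g, hg⟩ : ∃ g : Fin n → Fin n → ℝ, g = fun i k => ∑ l, (S i l : ℝ) * S k l := ⟨_, rfl⟩
  have hgE : ∀ i k, i ≠ k → g i k = -(∑ l, W i l * Δ k l) - (∑ l, W k l * Δ i l) +
      ∑ l, Δ i l * Δ k l := by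
    intro i k hik
    have h1 : ∑ l, W i l * W k l = 0 := by
      have h2 := congrFun (congrFun hWW i) k
      rw [Matrix.mul_apply, Matrix.smul_apply, Matrix.one_apply_ne hik, smul_zero] at h2
      exact h2
    have h2 : g i k = ∑ l, (W i l * W k l - W i l * Δ k l - W k l * Δ i l + Δ i l * Δ k l) := by
      rw [hg]
      refine Finset.sum_congr rfl fun l _ => ?_
      rw [hΔ]
      ring
    rw [h2, Finset.sum_add_distrib, Finset.sum_sub_distrib, Finset.sum_sub_distrib, h1]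
    ring
  have hgle : ∀ i k, (if i = k then 0 else g i k ^ 2) ≤ 3 * ((∑ l, W i l * Δ k l) ^ 2 +
      (∑ l, W k l * Δ i l) ^ 2 + 1 / 10000) := by
    intro i k
    split_ifs with hik
    · positivity
    · have h1 := dot_le (Δ i) (Δ k)
      have h2 : (∑ l, Δ i l * Δ k l) ^ 2 ≤ 1 / 10000 := by
        have h3 := pow_le_pow_left₀ (abs_nonneg _) h1 2
        rw [sq_abs, mul_pow] at h3
        have h4 := mul_le_mul (hΔn i) (hΔn k) (sq_nonneg _) (by norm_num)
        norm_num at h4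
        linarith
      rw [hgE i k hik]
      generalize ∑ l, W i l * Δ k l = x at *
      generalize ∑ l, W k l * Δ i l = y at *
      generalize ∑ l, Δ i l * Δ k l = z at *
      nlinarith [sq_nonneg (x - y), sq_nonneg (x + z), sq_nonneg (y + z)]
  have hsum1 : ∀ k, ∑ i, (∑ l, W i l * Δ k l) ^ 2 ≤ n / 100 := by
    intro k
    have h1 := nr_orth hn0 hWW (Δ k)
    have h2 : nr (W *ᵥ Δ k) ^ 2 = n * nr (Δ k) ^ 2 := by
      rw [h1, mul_pow, Real.sq_sqrt hn0.le]
    rw [nr_sq] at h2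
    have h3 : ∑ i, (W *ᵥ Δ k) i ^ 2 = ∑ i, (∑ l, W i l * Δ k l) ^ 2 := rfl
    rw [← h3, h2]
    have := mul_le_mul_of_nonneg_left (hΔn k) hn0.le
    linarith
  have htot : ∑ i, ∑ k, (if i = k then 0 else g i k ^ 2) ≤ 603 / 10000 * n ^ 2 := by
    refine (Finset.sum_le_sum fun i _ => Finset.sum_le_sum fun k _ => hgle i k).trans ?_
    simp only [← Finset.mul_sum, Finset.sum_add_distrib]
    have a1 : ∑ i, ∑ k, (∑ l, W i l * Δ k l) ^ 2 ≤ n * (n / 100) := by
      rw [Finset.sum_comm]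
      refine (Finset.sum_le_sum fun k _ => hsum1 k).trans (le_of_eq ?_)
      rw [Finset.sum_const, Finset.card_univ, Fintype.card_fin, nsmul_eq_mul]
    have a2 : ∑ i, ∑ k, (∑ l, W k l * Δ i l) ^ 2 ≤ n * (n / 100) := by
      refine (Finset.sum_le_sum fun i _ => hsum1 i).trans (le_of_eq ?_)
      rw [Finset.sum_const, Finset.card_univ, Fintype.card_fin, nsmul_eq_mul]
    have a3 : ∑ _i : Fin n, ∑ _k : Fin n, (1 / 10000 : ℝ) = n ^ 2 / 10000 := by
      simp only [Finset.sum_const, Finset.card_univ, Fintype.card_fin, nsmul_eq_mul]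
      ring
    rw [a3]
    linarith
  have hlow := frob_low hn S hSs
  have hlow2 : (n : ℝ) * ((n - 1) * (n - 2)) ≤
      3 * (n * ∑ i, ∑ k, (if i = k then 0 else g i k ^ 2)) := by
    have h1 : (((n : ℤ) * ((n - 1) * (n - 2)) : ℤ) : ℝ) ≤
      ((3 * (n * ∑ i, ∑ k, (if i = k then 0 else (∑ l, S i l * S k l) ^ 2)) : ℤ) : ℝ) := by
      exact_mod_cast hlow
    push_cast at h1
    rw [hg]
    exact h1
  have h5 : (n : ℝ) * ((n - 1) * (n - 2)) ≤ 3 * (n * (603 / 10000 * n ^ 2)) := by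
    refine hlow2.trans ?_
    have := mul_le_mul_of_nonneg_left htot hn0.le
    linarith
  have h6 : ((n : ℝ) - 1) * (n - 2) ≤ 3 * (603 / 10000 * n ^ 2) := by
    have h7 : (n : ℝ) * ((n - 1) * (n - 2)) ≤ n * (3 * (603 / 10000 * n ^ 2)) := by linarith
    exact le_of_mul_le_mul_left h7 hn0
  nlinarith

end Run7.h733.NI
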