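import Pool.Agent.W69.MD.Iter

set_option autoImplicit false

/-!
# Orders of Hadamard matrices slightly above `n`
-/

namespace Run7.h733.NI

open Pool.Agent.W851.Had Pool.Agent.W69.MD Pool.Agent.H108R3.Had

/-- For every fixed iterated logarithm there is a Hadamard matrix of order `n + d` with
`exp (2 d) ≤ log (log (⋯ n))`. -/
theorem grow (j : ℕ) : ∃ N : ℕ, 10000 ≤ N ∧ ∀ n : ℕ, N ≤ n → 20000 ≤ Real.log^[j] (n : ℝ) ∧
    ∃ d : ℕ, 1 ≤ d ∧ HasHad (n + d) ∧ Real.exp (2 * d) ≤ n ∧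
      Real.exp (2 * d) ≤ Real.log^[j] (n : ℝ) := by
  obtain ⟨C, hC, h⟩ := main_had
  obtain ⟨a₀, ha₀⟩ := exp_le_tow C (2 * j + 2) hC
  refine ⟨tow (a₀ + 20000 + 2 * j) + 10000, by omega, fun n hn => ?_⟩
  have hex : ∃ k, n ≤ tow k := ⟨n, (lt_tow n).le⟩
  obtain ⟨k, hk1, hk2⟩ : ∃ k, n ≤ tow k ∧ ∀ i < k, tow i < n :=
    ⟨Nat.find hex, Nat.find_spec hex, fun i hi => not_le.1 (Nat.find_min hex hi)⟩
  have hka : a₀ + 20000 + 2 * j < k := by
    by_contra hcon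
    push Not at hcon
    have := hk1.trans (tow_mono hcon)
    omega
  obtain ⟨a, ha⟩ : ∃ a, k = a + 2 * j + 1 := ⟨k - (2 * j + 1), by omega⟩
  have haa : a₀ ≤ a := by omega
  have haa2 : 20000 ≤ a := by omega
  have h1 : (tow (a + 2 * j) : ℝ) ≤ n := by
    exact_mod_cast (hk2 (a + 2 * j) (by omega)).le
  have h1' : (tow a : ℝ) ≤ n := by
    exact_mod_cast (hk2 a (by omega)).le
  have h2 := iter_log_tow j a n h1
  have h3 := ha₀ a haa
  have h4 : (20000 : ℝ) ≤ Real.log^[j] (n : ℝ) := by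
    refine le_trans ?_ h2
    have : 20000 ≤ tow a := haa2.trans (lt_tow a).le
    exact_mod_cast this
  refine ⟨h4, ?_⟩
  obtain ⟨t, ht⟩ : ∃ t, t = C ^ (k + 1) := ⟨_, rfl⟩
  have ht1 : 1 ≤ t := by rw [ht]; exact Nat.one_le_pow _ _ (by omega)
  have h2t : 2 ≤ 2 ^ t := by
    calc 2 = 2 ^ 1 := rfl
      _ ≤ _ := Nat.pow_le_pow_right (by norm_num) ht1
  obtain ⟨q, hq⟩ : ∃ q, q = n / 2 ^ t := ⟨_, rfl⟩
  have hdm := Nat.div_add_mod n (2 ^ t)
  have hmod := Nat.mod_lt n (show 0 < 2 ^ t by positivity)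
  rw [← hq] at hdm
  have hqn : q + 1 ≤ tow k := by
    refine le_trans ?_ hk1
    have : 2 * q ≤ 2 ^ t * q := Nat.mul_le_mul_right _ h2t
    omega
  refine ⟨2 ^ t - n % 2 ^ t, by omega, ?_, ?_, ?_⟩
  · have h5 := h k (q + 1) t hqn (by rw [ht])
    have e : 2 ^ t * (q + 1) = n + (2 ^ t - n % 2 ^ t) := by
      rw [mul_add, mul_one]
      omega
    rwa [e] at h5
  all_goals
    have h5 : Real.exp (2 * ((2 ^ t - n % 2 ^ t : ℕ) : ℝ)) ≤ tow a := by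
      refine le_trans (Real.exp_le_exp.2 ?_) h3
      have h6 : ((2 ^ t - n % 2 ^ t : ℕ) : ℝ) ≤ 2 ^ t := by
        have : 2 ^ t - n % 2 ^ t ≤ 2 ^ t := Nat.sub_le _ _
        exact_mod_cast this
      have e : k + 1 = a + (2 * j + 2) := by omega
      rw [ht, e] at h6 ⊢
      linarith
  · exact h5.trans h1'
  · exact h5.trans h2

end Run7.h733.NI
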