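import Pool.Agent.Run7.h733.NI.Round
import Pool.Agent.Run7.h733.NI.Flat
import Pool.Agent.Run7.h733.NI.Grow

set_option autoImplicit false
set_option linter.unusedSectionVars false

/-!
# Flat orthogonal matrices and sign matrices with nearly equal singular values in all orders
-/

namespace Run7.h733.NI

open Matrix Finset Pool.Agent.H108R3.Had

/-- `M y` has norm `√m |y|` -/
theorem nr_orth {n : ℕ} {M : Matrix (Fin n) (Fin n) ℝ} {m : ℝ} (hm : 0 < m)
    (h : M * Mᵀ = m • 1) (y : Fin n → ℝ) : nr (M *ᵥ y) = Real.sqrt m * nr y := by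
  have h1 : Mᵀ * M = m • 1 := by
    have h2 : M * (m⁻¹ • Mᵀ) = 1 := by
      rw [Matrix.mul_smul, h, smul_smul, inv_mul_cancel₀ hm.ne', one_smul]
    have h3 : (m⁻¹ • Mᵀ) * M = 1 := mul_eq_one_comm.1 h2
    have h4 : m • (m⁻¹ • Mᵀ * M) = m • (1 : Matrix (Fin n) (Fin n) ℝ) := by rw [h3]
    rw [Matrix.smul_mul, smul_smul, mul_inv_cancel₀ hm.ne', one_smul] at h4
    exact h4
  have h2 : nr (M *ᵥ y) ^ 2 = m * nr y ^ 2 := by
    have e1 : ∀ v : Fin n → ℝ, nr v ^ 2 = v ⬝ᵥ v := by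
      intro v
      rw [nr_sq]
      unfold dotProduct
      exact Finset.sum_congr rfl fun i _ => sq _
    rw [e1, e1, Matrix.dotProduct_mulVec, Matrix.vecMul_mulVec, ← Matrix.dotProduct_mulVec, h1,
      Matrix.smul_mulVec, Matrix.one_mulVec, dotProduct_smul, smul_eq_mul]
  have h3 : nr (M *ᵥ y) = Real.sqrt (m * nr y ^ 2) := by
    rw [← h2, Real.sqrt_sq (nr_nonneg _)]
  rw [h3, Real.sqrt_mul hm.le, Real.sqrt_sq (nr_nonneg _)]

/-- Sign matrices from Hadamard matrices of larger order, with an explicit error. -/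
theorem comb {n d : ℕ} [NeZero n] (h : HasHad (n + d)) {s a θ : ℝ} (hs : s = Real.sqrt (n + d))
    (hd : 2 * (d : ℝ) ≤ s) (ha : a = d / (s - d)) (hθ : 0 < θ) (hθ2 : θ ≤ 1 / 2) :
    ∃ S : Matrix (Fin n) (Fin n) ℝ, (∀ i j, S i j = 1 ∨ S i j = -1) ∧ ∀ y : Fin n → ℝ,
      |nr (S *ᵥ y) - (s - d) * nr y| ≤
        (Real.log (2 * n) + n * (θ ^ 2 * (4 * a))) / θ * nr y := by
  have hn0 : (0 : ℝ) < n := by
    have := Nat.pos_of_ne_zero (NeZero.ne n)
    exact_mod_cast this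
  have hm : (0 : ℝ) < n + d := by positivity
  have hs0 : 0 < s := by rw [hs]; exact Real.sqrt_pos.2 hm
  have hd0 : (0 : ℝ) ≤ d := Nat.cast_nonneg d
  have hsd : 0 < s - d := by linarith
  have ha0 : 0 ≤ a := by rw [ha]; positivity
  have ha1 : a ≤ 1 := by
    rw [ha, div_le_one hsd]
    linarith
  obtain ⟨A, M, hA, hM, hMA⟩ := flat (n := n) (d := d) (by rw [← hs]; linarith) h
  rw [← hs, ← ha] at hMA
  -- the matrix to be rounded
  have hMb : ∀ i j, 1 - a ≤ |M i j| ∧ |M i j| ≤ 1 + a := by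
    intro i j
    have h1 : |A i j| = 1 := by
      rcases hA i j with h | h <;> rw [h] <;> simp
    have h2 := abs_sub_abs_le_abs_sub (M i j) (A i j)
    have h3 := abs_sub_abs_le_abs_sub (A i j) (M i j)
    rw [abs_sub_comm] at h3
    have h4 := hMA i j
    constructor <;> linarith
  obtain ⟨P, hPd⟩ : ∃ P : Fin n → Fin n → ℝ, P = fun i j => M i j / (1 + a) := ⟨_, rfl⟩
  have hP1 : ∀ i j, |P i j| ≤ 1 := by
    intro i j
    rw [hPd]
    simp only
    rw [abs_div, abs_of_pos (show (0:ℝ) < 1 + a by linarith), div_le_one (by linarith)]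
    exact (hMb i j).2
  have hPv : ∀ i j, 1 - P i j ^ 2 ≤ 4 * a := by
    intro i j
    rw [hPd]
    simp only
    rw [← sq_abs, abs_div, abs_of_pos (show (0:ℝ) < 1 + a by linarith), div_pow,
      sub_le_iff_le_add, ← sub_le_iff_le_add', le_div_iff₀ (by positivity)]
    have h1 := (hMb i j).1
    have h2 : (1 - a) ^ 2 ≤ |M i j| ^ 2 := pow_le_pow_left₀ (by linarith) h1 2
    nlinarith [mul_nonneg ha0 (mul_nonneg ha0 ha0)]
  obtain ⟨S, hS, hb⟩ := round hP1 hPv (by linarith) hθ hθ2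
  refine ⟨S, hS, fun y => ?_⟩
  obtain ⟨lam, hlam⟩ : ∃ lam, lam = (Real.log (2 * n) + n * (θ ^ 2 * (4 * a))) / θ := ⟨_, rfl⟩
  rw [← hlam] at hb ⊢
  have hlam0 : 0 ≤ lam := by
    have h1 : (1:ℝ) ≤ n := by exact_mod_cast Nat.pos_of_ne_zero (NeZero.ne n)
    have : 0 < Real.log (2 * n) := Real.log_pos (by linarith)
    rw [hlam]
    positivity
  have hN : nr ((Matrix.of S - Matrix.of P) *ᵥ y) ≤ lam * nr y := by
    have h1 := hb y
    have h2 : nr ((Matrix.of S - Matrix.of P) *ᵥ y) ^ 2 ≤ (lam * nr y) ^ 2 := by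
      rw [nr_sq, mul_pow, nr_sq]
      exact h1
    exact abs_le_of_sq_le_sq' h2 (mul_nonneg hlam0 (nr_nonneg _)) |>.2
  have hPy : nr (Matrix.of P *ᵥ y) = (s - d) * nr y := by
    have e1 : Matrix.of P = (1 + a)⁻¹ • M := by
      ext i j
      rw [hPd, Matrix.of_apply, Matrix.smul_apply, smul_eq_mul, div_eq_inv_mul]
    rw [e1, Matrix.smul_mulVec, nr_smul, nr_orth hm hM, ← hs, ← mul_assoc,
      abs_of_pos (by positivity)]
    congr 1
    have e2 : 1 + a = s / (s - d) := by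
      rw [ha]
      field_simp
      ring
    rw [e2, inv_div]
    field_simp
  have e3 : Matrix.of S *ᵥ y = Matrix.of P *ᵥ y + (Matrix.of S - Matrix.of P) *ᵥ y := by
    rw [Matrix.sub_mulVec]
    abel
  have h1 : nr (Matrix.of S *ᵥ y) ≤ (s - d) * nr y + lam * nr y := by
    rw [e3, ← hPy]
    exact (nr_add _ _).trans (by linarith)
  have h2 : (s - d) * nr y ≤ nr (Matrix.of S *ᵥ y) + lam * nr y := by
    have e4 : Matrix.of P *ᵥ y = Matrix.of S *ᵥ y + (-1 : ℝ) • ((Matrix.of S - Matrix.of P) *ᵥ y) := by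
      rw [e3]
      simp
    rw [← hPy, e4]
    refine (nr_add _ _).trans ?_
    rw [nr_smul]
    norm_num
    exact hN
  have e5 : (S : Matrix (Fin n) (Fin n) ℝ) *ᵥ y = Matrix.of S *ᵥ y := rfl
  rw [e5, abs_le]
  constructor <;> linarith

/-- `log` and the fourth root -/
theorem log_quarter {x : ℝ} (hx : 0 < x) : Real.log (x ^ 4) ≤ 4 * (x - 1) := by
  rw [Real.log_pow]
  have := Real.log_le_sub_one_of_pos hx
  push_cast
  linarith

/-- Facts on the parameters. -/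
theorem params {n d : ℕ} (hn : 10000 ≤ n) (hd1 : 1 ≤ d) (hd : Real.exp (2 * d) ≤ n) :
    2 * (d : ℝ) ≤ Real.log n ∧ Real.log n ≤ 4 * (n : ℝ) ^ (1 / 4 : ℝ) ∧
      10 ≤ (n : ℝ) ^ (1 / 4 : ℝ) ∧ ((n : ℝ) ^ (1 / 4 : ℝ)) ^ 2 = Real.sqrt n ∧
      Real.sqrt n ≤ Real.sqrt (n + d) ∧ Real.sqrt (n + d) ≤ Real.sqrt n + d := by
  have hn0 : (0 : ℝ) < n := by
    have : 0 < n := by omega
    exact_mod_cast this
  have hnr : (10000 : ℝ) ≤ n := by exact_mod_cast hn
  obtain ⟨x, hx⟩ : ∃ x, x = (n : ℝ) ^ (1 / 4 : ℝ) := ⟨_, rfl⟩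
  have hx0 : 0 < x := by rw [hx]; positivity
  have hx4 : x ^ 4 = n := by
    rw [hx, ← Real.rpow_natCast, ← Real.rpow_mul hn0.le]
    norm_num
  rw [← hx]
  have hx10 : 10 ≤ x := by
    by_contra hcon
    push Not at hcon
    have : x ^ 4 < 10 ^ 4 := pow_lt_pow_left₀ hcon hx0.le (by norm_num)
    rw [hx4] at this
    norm_num at this
    linarith
  have hx2 : x ^ 2 = Real.sqrt n := by
    rw [← hx4, show x ^ 4 = (x ^ 2) ^ 2 by ring, Real.sqrt_sq (by positivity)]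
  refine ⟨?_, ?_, hx10, hx2, Real.sqrt_le_sqrt (by linarith [(Nat.cast_nonneg d : (0:ℝ) ≤ d)]), ?_⟩
  · have := Real.log_le_log (Real.exp_pos _) hd
    rwa [Real.log_exp] at this
  · have := log_quarter hx0
    rw [hx4] at this
    linarith
  · apply Real.sqrt_le_iff.2
    refine ⟨by positivity, ?_⟩
    have h1 : Real.sqrt n ^ 2 = n := Real.sq_sqrt hn0.le
    have h2 : 1 ≤ Real.sqrt n := by rw [← hx2]; nlinarith
    have h3 : (0:ℝ) ≤ d := Nat.cast_nonneg d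
    nlinarith

/-- **Sign matrices with nearly equal singular values in all orders.** -/
theorem near (j : ℕ) : ∃ N : ℕ, ∀ n : ℕ, N ≤ n → 1 ≤ Real.log^[j] (n : ℝ) ∧
    ∃ S : Matrix (Fin n) (Fin n) ℝ, (∀ i k, S i k = 1 ∨ S i k = -1) ∧ ∀ y : Fin n → ℝ,
      |nr (S *ᵥ y) - Real.sqrt n * nr y| ≤
        (n : ℝ) ^ (1 / 4 : ℝ) * Real.sqrt (Real.log n * Real.log^[j] (n : ℝ)) * nr y := by
  obtain ⟨N, hN, hgrow⟩ := grow j
  refine ⟨N, fun n hn => ?_⟩
  obtain ⟨hL, d, hd1, hhad, hdn, hdL⟩ := hgrow n hn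
  refine ⟨by linarith, ?_⟩
  have : NeZero n := ⟨by omega⟩
  obtain ⟨p1, p2, p3, p4, p5, p6⟩ := params (by omega : 10000 ≤ n) hd1 hdn
  obtain ⟨x, hx⟩ : ∃ x, x = (n : ℝ) ^ (1 / 4 : ℝ) := ⟨_, rfl⟩
  obtain ⟨s, hs⟩ : ∃ s, s = Real.sqrt (n + d) := ⟨_, rfl⟩
  obtain ⟨r, hr⟩ : ∃ r, r = Real.sqrt n := ⟨_, rfl⟩
  obtain ⟨ℓ, hℓ⟩ : ∃ ℓ, ℓ = Real.log n := ⟨_, rfl⟩
  obtain ⟨L, hLd⟩ : ∃ L, L = Real.log^[j] (n : ℝ) := ⟨_, rfl⟩
  rw [← hx] at p2 p3 p4 ⊢
  rw [← hs] at p5 p6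
  rw [← hr] at p4 p5 p6 ⊢
  rw [← hℓ] at p1 p2 ⊢
  rw [← hLd] at hL hdL ⊢
  have hd0 : (1 : ℝ) ≤ d := by exact_mod_cast hd1
  have hrn : r ^ 2 = n := by rw [hr]; exact Real.sq_sqrt (Nat.cast_nonneg n)
  have hr100 : 100 ≤ r := by rw [← p4]; nlinarith
  have hxr : 10 * x ≤ r := by rw [← p4]; nlinarith
  have hdr : 5 * (d : ℝ) ≤ r := by linarith
  have hsd : 0 < s - d := by linarith
  obtain ⟨a, ha⟩ : ∃ a, a = d / (s - d) := ⟨_, rfl⟩
  have ha0 : 0 < a := by rw [ha]; positivity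
  have ha2 : a * r ≤ 2 * d := by
    rw [ha, div_mul_eq_mul_div, div_le_iff₀ hsd]
    nlinarith
  have ha3 : d ≤ a * (2 * r) := by
    have h1 : s - d ≤ 2 * r := by linarith
    rw [ha, div_mul_eq_mul_div, le_div_iff₀ hsd]
    nlinarith
  have hn0 : (0 : ℝ) < n := by rw [← hrn]; positivity
  have hℓ4 : 4 ≤ ℓ := by
    have h1 : (10000 : ℝ) ≤ n := by
      have : 10000 ≤ n := by omega
      exact_mod_cast this
    rw [hℓ, Real.le_log_iff_exp_le hn0]
    refine le_trans ?_ h1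
    have h2 := Real.exp_one_lt_d9
    have h3 : Real.exp 4 = Real.exp 1 ^ 4 := by rw [← Real.exp_nat_mul]; norm_num
    rw [h3]
    have h4 : Real.exp 1 ^ 4 ≤ (3 : ℝ) ^ 4 := pow_le_pow_left₀ (Real.exp_pos 1).le (by linarith) 4
    norm_num at h4
    linarith
  obtain ⟨l2, hl2⟩ : ∃ l2, l2 = Real.log (2 * n) := ⟨_, rfl⟩
  have hl2' : l2 = Real.log 2 + ℓ := by rw [hl2, hℓ, Real.log_mul (by norm_num) hn0.ne']
  have hlog2 : Real.log 2 ≤ 1 := by have := Real.log_two_lt_d9; linarith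
  have hlog2' : 0 ≤ Real.log 2 := Real.log_nonneg (by norm_num)
  have hl2a : l2 ≤ 2 * ℓ := by linarith
  have hl2b : 0 < l2 := by linarith
  -- the parameter `θ`
  obtain ⟨θ, hθd⟩ : ∃ θ, θ = Real.sqrt (l2 / (4 * (a * n))) := ⟨_, rfl⟩
  have hθ2 : θ ^ 2 = l2 / (4 * (a * n)) := by rw [hθd]; exact Real.sq_sqrt (by positivity)
  have hθ0 : 0 < θ := by rw [hθd]; positivity
  have han : l2 ≤ a * n := by
    have h1 : r / 2 ≤ a * n := by
      rw [← hrn]
      have h2 := mul_le_mul_of_nonneg_right ha3 (show 0 ≤ r by linarith)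
      nlinarith
    linarith
  have hθ1 : θ ≤ 1 / 2 := by
    apply abs_le_of_sq_le_sq' _ (by norm_num) |>.2
    rw [hθ2, div_le_iff₀ (by positivity)]
    norm_num
    linarith
  obtain ⟨S, hS, hb⟩ := comb hhad hs (by linarith) ha hθ0 hθ1
  refine ⟨S, hS, fun y => ?_⟩
  obtain ⟨lam, hlam⟩ : ∃ lam, lam = (Real.log (2 * n) + n * (θ ^ 2 * (4 * a))) / θ := ⟨_, rfl⟩
  have hb' := hb y
  rw [← hlam] at hb'
  have hlam2 : lam = 2 * l2 / θ := by
    rw [hlam, ← hl2, hθ2]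
    congr 1
    field_simp
    ring
  have hlsq : lam ^ 2 = 16 * (l2 * (a * n)) := by
    rw [hlam2, div_pow, hθ2]
    field_simp
    ring
  have hlam0 : 0 < lam := by rw [hlam2]; positivity
  have hlsq2 : lam ^ 2 ≤ 64 * (ℓ * (d * r)) := by
    rw [hlsq]
    have h1 : a * n ≤ 2 * d * r := by
      rw [← hrn]
      nlinarith
    have h2 : l2 * (a * n) ≤ (2 * ℓ) * (2 * d * r) :=
      mul_le_mul hl2a h1 (by positivity) (by linarith)
    linarith
  -- the error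
  have hdL2 : 200 * (d : ℝ) ≤ L := by
    have h1 := Real.quadratic_le_exp_of_nonneg (show (0:ℝ) ≤ 2 * d by positivity)
    by_cases hd100 : (d : ℝ) ≤ 100
    · linarith
    · push Not at hd100
      have h2 : 2 * (d:ℝ) ^ 2 ≤ L := by nlinarith
      nlinarith
  obtain ⟨E, hE⟩ : ∃ E, E = x * Real.sqrt (ℓ * L) := ⟨_, rfl⟩
  have hEsq : E ^ 2 = r * (ℓ * L) := by
    rw [hE, mul_pow, Real.sq_sqrt (by positivity), p4]
  have hE0 : 0 ≤ E := by rw [hE]; positivity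
  have hr0 : 0 < r := by linarith
  have h1 : lam ≤ 3 / 5 * E := by
    apply abs_le_of_sq_le_sq' _ (by positivity) |>.2
    rw [mul_pow, hEsq]
    have h2 : ℓ * (d * r) * 200 ≤ r * (ℓ * L) := by
      have := mul_le_mul_of_nonneg_left hdL2 (show 0 ≤ ℓ * r by positivity)
      nlinarith
    have h3 : 0 ≤ r * (ℓ * L) := by positivity
    norm_num
    linarith
  have h2 : (d : ℝ) ≤ 2 / 5 * E := by
    apply abs_le_of_sq_le_sq' _ (by positivity) |>.2
    rw [mul_pow, hEsq]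
    have h3 : (d : ℝ) * d ≤ r * (ℓ * L) := by
      have h4 : (d : ℝ) ≤ r := by linarith
      have h5 : (d : ℝ) ≤ L := by linarith
      have h6 : (d : ℝ) * d ≤ r * L := mul_le_mul h4 h5 (by linarith) (by linarith)
      have h7 : r * L ≤ r * L * ℓ := by
        have : 0 ≤ r * L := by positivity
        nlinarith
      linarith
    have h8 : (d:ℝ) * d * 200 ≤ r * (ℓ * L) := by
      have h4 : (d : ℝ) ≤ r := by linarith
      have h6 : (d : ℝ) * (200 * d) ≤ r * L := mul_le_mul h4 hdL2 (by linarith) (by linarith)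
      have h7 : r * L ≤ r * L * ℓ := by
        have : 0 ≤ r * L := by positivity
        nlinarith
      linarith
    have h9 := mul_self_nonneg (d : ℝ)
    norm_num
    rw [sq]
    linarith
  have hny := nr_nonneg y
  have h3 : |(s - d) * nr y - r * nr y| ≤ d * nr y := by
    rw [← sub_mul, abs_mul, abs_of_nonneg hny]
    refine mul_le_mul_of_nonneg_right ?_ hny
    rw [abs_le]
    constructor <;> linarith
  rw [← hE]
  have h4 : nr (S *ᵥ y) - r * nr y = (nr (S *ᵥ y) - (s - d) * nr y) +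
      ((s - d) * nr y - r * nr y) := by ring
  rw [h4]
  refine (abs_add_le _ _).trans ?_
  nlinarith

end Run7.h733.NI
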