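import Pool.Agent.Run7.h733.NI.Step

set_option autoImplicit false
set_option linter.unusedSectionVars false

/-!
# Rounding a real matrix to a sign matrix with a small error in the operator norm
-/

namespace Run7.h733.NI

open RC14 Finset
open scoped InnerProductSpace

section

variable {n : ℕ}

/-- the space -/
abbrev VV (n : ℕ) : Type := EuclideanSpace ℂ (Fin n ⊕ Fin n)

/-- the operator which exchanges the basis vectors `i` (on the left) and `j` (on the right) -/
noncomputable def EE (i j : Fin n) : Module.End ℂ (VV n) :=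
  ((EuclideanSpace.proj (Sum.inl i) : VV n →L[ℂ] ℂ).toLinearMap.smulRight
      (EuclideanSpace.single (Sum.inr j) (1 : ℂ))) +
    ((EuclideanSpace.proj (Sum.inr j) : VV n →L[ℂ] ℂ).toLinearMap.smulRight
      (EuclideanSpace.single (Sum.inl i) (1 : ℂ)))

theorem EE_apply (i j : Fin n) (v : VV n) : EE i j v =
    v (Sum.inl i) • EuclideanSpace.single (Sum.inr j) (1 : ℂ) +
      v (Sum.inr j) • EuclideanSpace.single (Sum.inl i) (1 : ℂ) := rfl

theorem EE_symm (i j : Fin n) : (EE i j).IsSymmetric := by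
  intro u w
  rw [EE_apply, EE_apply, inner_add_left, inner_add_right, inner_smul_left, inner_smul_left,
    inner_smul_right, inner_smul_right, EuclideanSpace.inner_single_left,
    EuclideanSpace.inner_single_left, EuclideanSpace.inner_single_right,
    EuclideanSpace.inner_single_right]
  simp only [map_one, one_mul]
  ring

theorem EE_inl (i j k : Fin n) (v : VV n) : (EE i j v) (Sum.inl k) =
    if k = i then v (Sum.inr j) else 0 := by
  rw [EE_apply]
  simp

theorem EE_inr (i j k : Fin n) (v : VV n) : (EE i j v) (Sum.inr k) =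
    if k = j then v (Sum.inl i) else 0 := by
  rw [EE_apply]
  simp

theorem EE_orth {i j i' j' : Fin n} (hi : i ≠ i') (hj : j ≠ j') : EE i j * EE i' j' = 0 := by
  apply LinearMap.ext
  intro v
  rw [Module.End.mul_apply, EE_apply, EE_inl, EE_inr, if_neg hi, if_neg hj]
  simp

theorem EE_sq (i j : Fin n) (v : VV n) : (EE i j * EE i j) v =
    v (Sum.inr j) • EuclideanSpace.single (Sum.inr j) (1 : ℂ) +
      v (Sum.inl i) • EuclideanSpace.single (Sum.inl i) (1 : ℂ) := by
  rw [Module.End.mul_apply, EE_apply, EE_inl, EE_inr, if_pos rfl, if_pos rfl]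

theorem grp (σ : Equiv.Perm (Fin n)) : Grp (fun i => EE i (σ i)) where
  symm i := EE_symm _ _
  orth i j hij := EE_orth hij (fun h => hij (σ.injective h))
  one := by
    apply LinearMap.ext
    intro v
    rw [LinearMap.sum_apply]
    simp only [EE_sq]
    rw [Finset.sum_add_distrib]
    rw [Equiv.sum_comp σ (fun i => v (Sum.inr i) • EuclideanSpace.single (Sum.inr i) (1 : ℂ))]
    ext k
    rcases k with k | k
    · simp only [WithLp.ofLp_add, Pi.add_apply, WithLp.ofLp_sum, Finset.sum_apply,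
        WithLp.ofLp_smul, Pi.smul_apply, smul_eq_mul, Module.End.one_apply]
      rw [Finset.sum_eq_zero, zero_add, Finset.sum_eq_single k]
      · simp
      · intro i _ hi
        simp [hi.symm]
      · intro h
        exact absurd (Finset.mem_univ k) h
      · intro i _
        simp
    · simp only [WithLp.ofLp_add, Pi.add_apply, WithLp.ofLp_sum, Finset.sum_apply,
        WithLp.ofLp_smul, Pi.smul_apply, smul_eq_mul, Module.End.one_apply]
      rw [add_comm, Finset.sum_eq_zero, zero_add, Finset.sum_eq_single k]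
      · simp
      · intro i _ hi
        simp [hi.symm]
      · intro h
        exact absurd (Finset.mem_univ k) h
      · intro i _
        simp

/-- the vector with real parts `x` and `y` -/
noncomputable def vec (x y : Fin n → ℝ) : VV n :=
  (WithLp.toLp 2 (Sum.elim (fun i => ((x i : ℝ) : ℂ)) (fun j => ((y j : ℝ) : ℂ))))

theorem vec_inl (x y : Fin n → ℝ) (i : Fin n) : vec x y (Sum.inl i) = ((x i : ℝ) : ℂ) := rfl

theorem vec_inr (x y : Fin n → ℝ) (i : Fin n) : vec x y (Sum.inr i) = ((y i : ℝ) : ℂ) := rfl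

theorem qf_EE (i j : Fin n) (x y : Fin n → ℝ) : qf (EE i j) (vec x y) = 2 * (x i * y j) := by
  unfold qf
  rw [EE_apply, inner_add_left, inner_smul_left, inner_smul_left,
    EuclideanSpace.inner_single_left, EuclideanSpace.inner_single_left]
  simp only [map_one, one_mul, vec_inl, vec_inr, Complex.conj_ofReal]
  rw [← Complex.ofReal_mul, ← Complex.ofReal_mul, ← Complex.ofReal_add, Complex.ofReal_re]
  ring

theorem vec_norm (x y : Fin n → ℝ) : ‖vec x y‖ ^ 2 = ∑ i, x i ^ 2 + ∑ j, y j ^ 2 := by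
  rw [EuclideanSpace.norm_sq_eq, Fintype.sum_sum_type]
  congr 1
  · refine Finset.sum_congr rfl fun i _ => ?_
    rw [vec_inl, Complex.norm_real, Real.norm_eq_abs, sq_abs]
  · refine Finset.sum_congr rfl fun i _ => ?_
    rw [vec_inr, Complex.norm_real, Real.norm_eq_abs, sq_abs]

end

/-- All groups. -/
theorem all_groups {n : ℕ} [NeZero n] {P : Fin n → Fin n → ℝ} (hP : ∀ i j, |P i j| ≤ 1)
    {v θ : ℝ} (hv : ∀ i j, 1 - P i j ^ 2 ≤ v) (hv0 : 0 ≤ v) (hθ : 0 ≤ θ) (hθ2 : θ ≤ 1 / 2)
    (s : Finset (Fin n)) :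
    ∃ S : Fin n → Fin n → ℝ, (∀ i j, S i j = 1 ∨ S i j = -1) ∧
      rtr (ex (∑ k ∈ s, gsum (fun i => EE i (i + k)) (fun i => θ * (S i (i + k) - P i (i + k))))) ≤
        (1 + θ ^ 2 * v) ^ s.card * (2 * n) := by
  classical
  induction s using Finset.induction_on with
  | empty =>
    refine ⟨fun _ _ => 1, fun _ _ => Or.inl rfl, ?_⟩
    rw [Finset.sum_empty, ex_zero, Finset.card_empty, pow_zero, one_mul]
    unfold rtr
    rw [LinearMap.trace_one]
    simp [VV]
    ring_nf
    rfl
  | insert k s hk ih =>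
    obtain ⟨S, hS, hb⟩ := ih
    have hG : Grp (fun i : Fin n => EE i (i + k)) := grp (Equiv.addRight k)
    have hA : (∑ k ∈ s, gsum (fun i => EE i (i + k))
        (fun i => θ * (S i (i + k) - P i (i + k)))).IsSymmetric := by
      intro u w
      rw [LinearMap.sum_apply, LinearMap.sum_apply, sum_inner, inner_sum]
      refine Finset.sum_congr rfl fun l _ => ?_
      exact gsum_symm (grp (Equiv.addRight l)) _ u w
    obtain ⟨e, he, hstep⟩ := group_step hG _ hA (p := fun i => P i (i + k)) (fun i => hP _ _)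
      (fun i => hv _ _) hθ hθ2
    refine ⟨fun i j => if j = i + k then e i else S i j, ?_, ?_⟩
    · intro i j
      dsimp only
      split_ifs
      · exact he i
      · exact hS i j
    · have e1 : ∑ l ∈ insert k s, gsum (fun i => EE i (i + l)) (fun i => θ *
          ((if i + l = i + k then e i else S i (i + l)) - P i (i + l))) =
          (∑ l ∈ s, gsum (fun i => EE i (i + l)) (fun i => θ * (S i (i + l) - P i (i + l)))) +
          gsum (fun i => EE i (i + k)) (fun i => θ * (e i - P i (i + k))) := by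
        rw [Finset.sum_insert hk, add_comm]
        congr 1
        · refine Finset.sum_congr rfl fun l hl => ?_
          congr 1
          funext i
          have : ¬ (i + l = i + k) := fun h => hk (by rwa [← add_left_cancel h])
          rw [if_neg this]
        · congr 1
          funext i
          rw [if_pos rfl]
      rw [e1, Finset.card_insert_of_notMem hk, pow_succ]
      refine hstep.trans ?_
      have h1 : 0 ≤ 1 + θ ^ 2 * v := by positivity
      have h2 := mul_le_mul_of_nonneg_left hb h1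
      linarith

/-- Rounding to signs. -/
theorem round {n : ℕ} [NeZero n] {P : Fin n → Fin n → ℝ} (hP : ∀ i j, |P i j| ≤ 1)
    {v θ : ℝ} (hv : ∀ i j, 1 - P i j ^ 2 ≤ v) (hv0 : 0 ≤ v) (hθ : 0 < θ) (hθ2 : θ ≤ 1 / 2) :
    ∃ S : Fin n → Fin n → ℝ, (∀ i j, S i j = 1 ∨ S i j = -1) ∧
      ∀ y : Fin n → ℝ, ∑ i, (∑ j, (S i j - P i j) * y j) ^ 2 ≤
        ((Real.log (2 * n) + n * (θ ^ 2 * v)) / θ) ^ 2 * ∑ j, y j ^ 2 := by
  classical
  obtain ⟨S, hS, hb⟩ := all_groups hP hv hv0 hθ.le hθ2 Finset.univ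
  refine ⟨S, hS, ?_⟩
  obtain ⟨A, hA⟩ : ∃ A : Module.End ℂ (VV n), A = ∑ k, gsum (fun i => EE i (i + k))
    (fun i => θ * (S i (i + k) - P i (i + k))) := ⟨_, rfl⟩
  rw [← hA] at hb
  have hAs : A.IsSymmetric := by
    intro u w
    rw [hA, LinearMap.sum_apply, LinearMap.sum_apply, sum_inner, inner_sum]
    refine Finset.sum_congr rfl fun l _ => ?_
    exact gsum_symm (grp (Equiv.addRight l)) _ u w
  have hn0 : (0 : ℝ) < n := by
    have := Nat.pos_of_ne_zero (NeZero.ne n)
    exact_mod_cast this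
  obtain ⟨L, hL⟩ : ∃ L : ℝ, L = Real.log (2 * n) + n * (θ ^ 2 * v) := ⟨_, rfl⟩
  have htr : rtr (ex A) ≤ Real.exp L := by
    refine hb.trans ?_
    rw [hL, Real.exp_add, Real.exp_log (by positivity), mul_comm]
    refine mul_le_mul_of_nonneg_left ?_ (by positivity)
    rw [Finset.card_univ, Fintype.card_fin, Real.exp_nat_mul]
    exact pow_le_pow_left₀ (by positivity) (by linarith [Real.add_one_le_exp (θ ^ 2 * v)]) _
  have hunit : ∀ w : VV n, ‖w‖ = 1 → qf A w ≤ L := by
    intro w hw
    have h1 := ex_jensen A hAs w hw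
    have h2 := ex_le_tr A hAs w hw
    exact Real.exp_le_exp.1 (h1.trans (h2.trans htr))
  have hall : ∀ w : VV n, qf A w ≤ L * ‖w‖ ^ 2 := by
    intro w
    by_cases hw : w = 0
    · rw [hw]
      unfold qf
      simp
    · have hn : ‖w‖ ≠ 0 := norm_ne_zero_iff.2 hw
      have h1 := hunit (((‖w‖⁻¹ : ℝ) : ℂ) • w) (by
        rw [norm_smul, Complex.norm_real, norm_inv, norm_norm, inv_mul_cancel₀ hn])
      have h2 : qf A (((‖w‖⁻¹ : ℝ) : ℂ) • w) = (‖w‖⁻¹) ^ 2 * qf A w := by
        unfold qf
        rw [map_smul, inner_smul_left, inner_smul_right, Complex.conj_ofReal,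
          Complex.re_ofReal_mul, Complex.re_ofReal_mul]
        ring
      rw [h2, inv_pow, inv_mul_le_iff₀ (by positivity), mul_comm] at h1
      exact h1
  have hqf : ∀ x y : Fin n → ℝ, qf A (vec x y) =
      2 * θ * ∑ i, x i * ∑ j, (S i j - P i j) * y j := by
    intro x y
    rw [hA, qf_sum]
    have e1 : ∀ k : Fin n, qf (gsum (fun i => EE i (i + k))
        (fun i => θ * (S i (i + k) - P i (i + k)))) (vec x y) =
        ∑ i, 2 * θ * (x i * ((S i (i + k) - P i (i + k)) * y (i + k))) := by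
      intro k
      unfold gsum
      rw [qf_sum]
      refine Finset.sum_congr rfl fun i _ => ?_
      rw [qf_smul, qf_EE]
      ring
    rw [Finset.sum_congr rfl fun k _ => e1 k, Finset.sum_comm, Finset.mul_sum]
    refine Finset.sum_congr rfl fun i _ => ?_
    rw [← Finset.mul_sum, ← Finset.mul_sum]
    congr 1
    congr 1
    exact Equiv.sum_comp (Equiv.addLeft i) (fun j => (S i j - P i j) * y j)
  intro y
  obtain ⟨z, hz⟩ : ∃ z : Fin n → ℝ, z = fun i => ∑ j, (S i j - P i j) * y j := ⟨_, rfl⟩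
  have hzi : ∀ i, ∑ j, (S i j - P i j) * y j = z i := fun i => by rw [hz]
  simp only [hzi]
  obtain ⟨Z, hZ⟩ : ∃ Z : ℝ, Z = ∑ i, z i ^ 2 := ⟨_, rfl⟩
  obtain ⟨Y, hY⟩ : ∃ Y : ℝ, Y = ∑ j, y j ^ 2 := ⟨_, rfl⟩
  rw [← hZ, ← hL, ← hY]
  have hY0 : 0 ≤ Y := by rw [hY]; positivity
  have hL0 : 0 < L := by
    have h1 : (1:ℝ) ≤ n := by exact_mod_cast Nat.pos_of_ne_zero (NeZero.ne n)
    have : 0 < Real.log (2 * n) := Real.log_pos (by linarith)
    rw [hL]
    positivity
  -- the vector `t z`
  have key : ∀ t : ℝ, 2 * θ * (t * Z) ≤ L * (t ^ 2 * Z + Y) := by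
    intro t
    have h1 := hall (vec (fun i => t * z i) y)
    rw [hqf, vec_norm] at h1
    simp only [hzi] at h1
    have e1 : ∑ i, t * z i * z i = t * Z := by
      rw [hZ, Finset.mul_sum]
      exact Finset.sum_congr rfl fun i _ => by ring
    have e2 : ∑ i, (t * z i) ^ 2 = t ^ 2 * Z := by
      rw [hZ, Finset.mul_sum]
      exact Finset.sum_congr rfl fun i _ => by ring
    rw [e1, e2, ← hY] at h1
    exact h1
  have h1 := key (θ / L)
  have h2 : θ ^ 2 * Z ≤ L ^ 2 * Y := by
    have e1 : 2 * θ * (θ / L * Z) = 2 * (θ ^ 2 * Z) / L := by ring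
    have e2 : L * ((θ / L) ^ 2 * Z + Y) = (θ ^ 2 * Z + L ^ 2 * Y) / L := by
      field_simp
    rw [e1, e2, div_le_div_iff_of_pos_right hL0] at h1
    linarith
  rw [div_pow, div_mul_eq_mul_div, le_div_iff₀ (by positivity)]
  linarith

end Run7.h733.NI
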