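import Mathlib
import Pool.Agent.H726R2.RD.GT
import Pool.Agent.H409R2.RD.EXB

set_option autoImplicit false
set_option linter.unusedSectionVars false

/-!
# Rounding with a small operator norm: one group of commuting operators

The sum of operators `E x` with `E x * E y = 0` for `x ≠ y` and `∑ E x ^ 2 = 1`, with coefficients
`θ (e x - p x)`, `e x = ± 1`, is added to a self-adjoint operator `A`; for a suitable choice of the
signs the trace of the exponential grows by the factor `1 + θ² v` at most, where `1 - (p x)² ≤ v`.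
-/

namespace Run7.h733.NI

open RC14 Finset
open scoped InnerProductSpace

variable {V : Type*} [NormedAddCommGroup V] [InnerProductSpace ℂ V] [FiniteDimensional ℂ V]

/-- the quadratic form -/
noncomputable def qf (B : Module.End ℂ V) (v : V) : ℝ := (⟪B v, v⟫_ℂ).re

theorem symm_swap (B : Module.End ℂ V) (v : V) : (⟪v, B v⟫_ℂ).re = qf B v := by
  unfold qf
  rw [← inner_conj_symm, Complex.conj_re]

theorem rtr_qf {n : ℕ} (b : OrthonormalBasis (Fin n) ℂ V) (B : Module.End ℂ V) :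
    rtr B = ∑ i, qf B (b i) := by
  unfold rtr
  rw [LinearMap.trace_eq_sum_inner B b, Complex.re_sum]
  exact Finset.sum_congr rfl fun i _ => symm_swap B (b i)

theorem rtr_add (A B : Module.End ℂ V) : rtr (A + B) = rtr A + rtr B := by
  unfold rtr
  rw [map_add, Complex.add_re]

theorem rtr_smul (c : ℝ) (A : Module.End ℂ V) : rtr ((c : ℂ) • A) = c * rtr A := by
  unfold rtr
  rw [map_smul, smul_eq_mul, Complex.re_ofReal_mul]

theorem rtr_zero : rtr (0 : Module.End ℂ V) = 0 := by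
  unfold rtr
  rw [map_zero, Complex.zero_re]

theorem rtr_sum {ι : Type*} (s : Finset ι) (f : ι → Module.End ℂ V) :
    rtr (∑ i ∈ s, f i) = ∑ i ∈ s, rtr (f i) := by
  unfold rtr
  rw [map_sum, Complex.re_sum]

theorem rtr_ex_nonneg (A : Module.End ℂ V) (hA : A.IsSymmetric) : 0 ≤ rtr (ex A) := by
  rw [rtr_qf (stdOrthonormalBasis ℂ V)]
  exact Finset.sum_nonneg fun i _ => ex_pos A hA _

/-- `e^y ≤ 1 + y + y²` on `[-1,1]` -/
theorem exp_le2 {y : ℝ} (h : |y| ≤ 1) : Real.exp y ≤ 1 + y + y ^ 2 := by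
  have h1 := Real.abs_exp_sub_one_sub_id_le h
  have h2 := le_abs_self (Real.exp y - 1 - y)
  linarith

/-- Second order bound for the trace of the exponential. -/
theorem trace_step2 (A Y : Module.End ℂ V) (hA : A.IsSymmetric) (hY : Y.IsSymmetric)
    (h1 : ∀ v, qf (Y * Y) v ≤ ‖v‖ ^ 2) :
    rtr (ex (A + Y)) ≤ rtr (ex A) + rtr (ex A * Y) + rtr (ex A * (Y * Y)) := by
  refine (GT A Y hA hY).trans ?_
  obtain ⟨m, c, y, hc1, hc2⟩ := EXB.diag Y hY
  have hyy : ∀ k, (Y * Y) (c k) = (((y k) ^ 2 : ℝ) : ℂ) • c k := by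
    intro k
    rw [Module.End.mul_apply, hc1, map_smul, hc1, smul_smul]
    congr 1
    push_cast
    ring
  have hy : ∀ k, |y k| ≤ 1 := by
    intro k
    have h2 := h1 (c k)
    unfold qf at h2
    rw [hyy, inner_smul_left, Complex.conj_ofReal, inner_self_eq_norm_sq_to_K, c.norm_eq_one] at h2
    rw [Complex.re_ofReal_mul] at h2
    have h3 : (y k) ^ 2 ≤ 1 := by
      norm_num at h2
      exact abs_le_one_iff_mul_self_le_one.1 h2 |>.trans_eq' (by ring)
    exact abs_le_one_iff_mul_self_le_one.2 (by nlinarith)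
  have e1 : rtr (ex A * ex Y) = ∑ k, Real.exp (y k) * qf (ex A) (c k) := by
    rw [rtr_qf c]
    apply Finset.sum_congr rfl
    intro k _
    unfold qf
    rw [Module.End.mul_apply, hc2, map_smul, inner_smul_left, Complex.conj_ofReal,
      Complex.re_ofReal_mul]
  have e2 : rtr (ex A * Y) = ∑ k, y k * qf (ex A) (c k) := by
    rw [rtr_qf c]
    apply Finset.sum_congr rfl
    intro k _
    unfold qf
    rw [Module.End.mul_apply, hc1, map_smul, inner_smul_left, Complex.conj_ofReal,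
      Complex.re_ofReal_mul]
  have e3 : rtr (ex A * (Y * Y)) = ∑ k, (y k) ^ 2 * qf (ex A) (c k) := by
    rw [rtr_qf c]
    apply Finset.sum_congr rfl
    intro k _
    unfold qf
    rw [Module.End.mul_apply, hyy, map_smul, inner_smul_left, Complex.conj_ofReal,
      Complex.re_ofReal_mul]
  rw [e1, e2, e3, rtr_qf c, ← Finset.sum_add_distrib, ← Finset.sum_add_distrib]
  refine Finset.sum_le_sum fun k _ => ?_
  have h2 := mul_le_mul_of_nonneg_right (exp_le2 (hy k)) (ex_pos A hA (c k))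
  unfold qf
  nlinarith

/-- The trace of the product with a square is nonnegative. -/
theorem rtr_sq_nonneg (A E : Module.End ℂ V) (hA : A.IsSymmetric) (hE : E.IsSymmetric) :
    0 ≤ rtr (ex A * (E * E)) := by
  obtain ⟨m, c, y, hc1, hc2⟩ := EXB.diag E hE
  have hyy : ∀ k, (E * E) (c k) = (((y k) ^ 2 : ℝ) : ℂ) • c k := by
    intro k
    rw [Module.End.mul_apply, hc1, map_smul, hc1, smul_smul]
    congr 1
    push_cast
    ring
  rw [rtr_qf c]
  refine Finset.sum_nonneg fun k _ => ?_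
  unfold qf
  rw [Module.End.mul_apply, hyy, map_smul, inner_smul_left, Complex.conj_ofReal,
    Complex.re_ofReal_mul]
  exact mul_nonneg (sq_nonneg _) (ex_pos A hA _)

/-- the choice of one sign -/
theorem choose_sign {p α β θ v : ℝ} (hp : |p| ≤ 1) (hβ : 0 ≤ β) (hv : 1 - p ^ 2 ≤ v) :
    ∃ e : ℝ, (e = 1 ∨ e = -1) ∧
      θ * (e - p) * α + (θ * (e - p)) ^ 2 * β ≤ θ ^ 2 * v * β := by
  obtain ⟨hp1, hp2⟩ := abs_le.1 hp
  by_contra hcon
  push Not at hcon
  have h1 := hcon 1 (Or.inl rfl)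
  have h2 := hcon (-1) (Or.inr rfl)
  have h3 : θ ^ 2 * (1 - p ^ 2) * β ≤ θ ^ 2 * v * β :=
    mul_le_mul_of_nonneg_right (mul_le_mul_of_nonneg_left hv (sq_nonneg θ)) hβ
  have e : (1 + p) / 2 * (θ * (1 - p) * α + (θ * (1 - p)) ^ 2 * β) +
      (1 - p) / 2 * (θ * (-1 - p) * α + (θ * (-1 - p)) ^ 2 * β) = θ ^ 2 * (1 - p ^ 2) * β := by
    ring
  have w1 : 0 ≤ (1 + p) / 2 := by linarith
  have w2 : 0 ≤ (1 - p) / 2 := by linarith
  rcases w1.eq_or_lt with h0 | h0
  · have h5 : p = -1 := by linarith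
    rw [h5] at h2 h3
    norm_num at h2 h3
    linarith
  · have g1 := mul_lt_mul_of_pos_left h1 h0
    have g2 := mul_le_mul_of_nonneg_left h2.le w2
    have g3 : (1 + p) / 2 * (θ ^ 2 * v * β) + (1 - p) / 2 * (θ ^ 2 * v * β) = θ ^ 2 * v * β := by
      ring
    linarith

/-- a group of operators on orthogonal pieces -/
structure Grp {ι : Type*} [Fintype ι] (E : ι → Module.End ℂ V) : Prop where
  symm : ∀ i, (E i).IsSymmetric
  orth : ∀ i j, i ≠ j → E i * E j = 0
  one : ∑ i, E i * E i = 1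

variable {ι : Type*} [Fintype ι]

/-- the sum of the group -/
noncomputable def gsum (E : ι → Module.End ℂ V) (y : ι → ℝ) : Module.End ℂ V :=
  ∑ i, ((y i : ℝ) : ℂ) • E i

theorem gsum_symm {E : ι → Module.End ℂ V} (h : Grp E) (y : ι → ℝ) : (gsum E y).IsSymmetric := by
  intro u w
  unfold gsum
  rw [LinearMap.sum_apply, LinearMap.sum_apply, sum_inner, inner_sum]
  refine Finset.sum_congr rfl fun i _ => ?_
  rw [LinearMap.smul_apply, LinearMap.smul_apply, inner_smul_left, inner_smul_right,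
    Complex.conj_ofReal, h.symm i u w]

theorem gsum_sq {E : ι → Module.End ℂ V} (h : Grp E) (y : ι → ℝ) :
    gsum E y * gsum E y = ∑ i, (((y i) ^ 2 : ℝ) : ℂ) • (E i * E i) := by
  classical
  unfold gsum
  rw [Finset.sum_mul]
  refine Finset.sum_congr rfl fun i _ => ?_
  rw [Finset.mul_sum, Finset.sum_eq_single i]
  · rw [smul_mul_smul_comm]
    congr 1
    push_cast
    ring
  · intro j _ hj
    rw [smul_mul_smul_comm, h.orth i j hj.symm, smul_zero]
  · intro hi
    exact absurd (Finset.mem_univ i) hi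

theorem qf_sum {κ : Type*} (s : Finset κ) (f : κ → Module.End ℂ V) (v : V) :
    qf (∑ i ∈ s, f i) v = ∑ i ∈ s, qf (f i) v := by
  unfold qf
  rw [LinearMap.sum_apply, sum_inner, Complex.re_sum]

theorem qf_smul (c : ℝ) (A : Module.End ℂ V) (v : V) : qf ((c : ℂ) • A) v = c * qf A v := by
  unfold qf
  rw [LinearMap.smul_apply, inner_smul_left, Complex.conj_ofReal, Complex.re_ofReal_mul]

theorem qf_one (v : V) : qf (1 : Module.End ℂ V) v = ‖v‖ ^ 2 := by
  unfold qf
  rw [Module.End.one_apply, inner_self_eq_norm_sq_to_K]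
  norm_cast

theorem qf_sq_nonneg {A : Module.End ℂ V} (hA : A.IsSymmetric) (v : V) : 0 ≤ qf (A * A) v := by
  unfold qf
  rw [Module.End.mul_apply, hA, inner_self_eq_norm_sq_to_K]
  have e : (((‖A v‖ : ℝ) : ℂ) ^ 2).re = ‖A v‖ ^ 2 := by norm_cast
  exact e.symm ▸ sq_nonneg _

theorem gsum_le {E : ι → Module.End ℂ V} (h : Grp E) {y : ι → ℝ} (hy : ∀ i, |y i| ≤ 1) (v : V) :
    qf (gsum E y * gsum E y) v ≤ ‖v‖ ^ 2 := by
  rw [gsum_sq h, qf_sum, ← qf_one, ← h.one, qf_sum]
  refine Finset.sum_le_sum fun i _ => ?_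
  rw [qf_smul]
  have h1 := qf_sq_nonneg (h.symm i) v
  have h2 : (y i) ^ 2 ≤ 1 := by
    have := hy i
    rw [← sq_abs]
    exact pow_le_one₀ (abs_nonneg _) this
  nlinarith

/-- One group. -/
theorem group_step {E : ι → Module.End ℂ V} (h : Grp E) (A : Module.End ℂ V)
    (hA : A.IsSymmetric) {p : ι → ℝ} (hp : ∀ i, |p i| ≤ 1) {v θ : ℝ} (hv : ∀ i, 1 - p i ^ 2 ≤ v)
    (hθ : 0 ≤ θ) (hθ2 : θ ≤ 1 / 2) :
    ∃ e : ι → ℝ, (∀ i, e i = 1 ∨ e i = -1) ∧
      rtr (ex (A + gsum E (fun i => θ * (e i - p i)))) ≤ (1 + θ ^ 2 * v) * rtr (ex A) := by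
  have hβ : ∀ i, 0 ≤ rtr (ex A * (E i * E i)) := fun i => rtr_sq_nonneg A (E i) hA (h.symm i)
  have hch := fun i => choose_sign (θ := θ) (α := rtr (ex A * E i)) (hp i) (hβ i) (hv i)
  choose e he1 he2 using hch
  refine ⟨e, he1, ?_⟩
  have hy : ∀ i, |θ * (e i - p i)| ≤ 1 := by
    intro i
    have h1 : |e i| ≤ 1 := by
      rcases he1 i with h | h <;> rw [h] <;> simp
    have h2 : |e i - p i| ≤ 2 := by
      have := abs_sub (e i) (p i)
      have := hp i
      linarith
    rw [abs_mul, abs_of_nonneg hθ]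
    have := abs_nonneg (e i - p i)
    nlinarith
  refine (trace_step2 A _ hA (gsum_symm h _) (gsum_le h hy)).trans ?_
  have e1 : rtr (ex A * gsum E (fun i => θ * (e i - p i))) =
      ∑ i, θ * (e i - p i) * rtr (ex A * E i) := by
    unfold gsum
    rw [Finset.mul_sum, rtr_sum]
    refine Finset.sum_congr rfl fun i _ => ?_
    rw [mul_smul_comm, rtr_smul]
  have e2 : rtr (ex A * (gsum E (fun i => θ * (e i - p i)) * gsum E (fun i => θ * (e i - p i)))) =
      ∑ i, (θ * (e i - p i)) ^ 2 * rtr (ex A * (E i * E i)) := by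
    rw [gsum_sq h, Finset.mul_sum, rtr_sum]
    refine Finset.sum_congr rfl fun i _ => ?_
    rw [mul_smul_comm, rtr_smul]
  have e3 : rtr (ex A) = ∑ i, rtr (ex A * (E i * E i)) := by
    rw [← rtr_sum, ← Finset.mul_sum, h.one, mul_one]
  rw [e1, e2, add_assoc, ← Finset.sum_add_distrib]
  have h4 : ∑ i, (θ * (e i - p i) * rtr (ex A * E i) +
      (θ * (e i - p i)) ^ 2 * rtr (ex A * (E i * E i))) ≤ θ ^ 2 * v * rtr (ex A) := by
    rw [e3, Finset.mul_sum]
    exact Finset.sum_le_sum fun i _ => he2 i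
  linarith

end Run7.h733.NI
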